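import Pool.Agent.Q36.EI.Det
import Pool.Agent.Q36.EF.Defs

/-!
# The line bundles
-/

set_option autoImplicit false
set_option linter.unusedSectionVars false

namespace Q36.EI

open Pool.Agent.W594.SYZ2 Pool.Agent.TH735.AQ Pool.Agent.Y167
open Q276.SYZ (IsGauss isGauss_zero isGauss_one gauss_small isGauss_int)
open Q47.EB.Ex3 (H1 H1_herm H1_re th th_holo th_add th_good ep ep_add)
open Q36.EF (BasePointFree)

variable {m : ℕ} [NeZero m]

variable (m) in
/-- The block whose second coordinate is `a`. -/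
def j0 : Q m := ⟨(0, -1, 1, 0), by simp⟩

variable (m) in
/-- The block of the identity matrix. -/
def jB : Q m := ⟨(1, 0, 0, 1), by simp⟩

theorem lam_j0 (a b : ZMod m) : lam (j0 m) a b = a := by simp [lam, j0]

theorem lam_jB (a b : ZMod m) : lam (jB m) a b = b := by simp [lam, jB]

/-- The character. -/
noncomputable def ch (γ : V m ≃ᵃ[ℂ] V m) : ℂ :=
  Complex.exp (2 * Real.pi * Complex.I * (((γ 0).1 (j0 m) 0).re : ℝ))

theorem Rep.zero {γ : V m ≃ᵃ[ℂ] V m} {a b : ZMod m} {w : V m} (h : Rep γ a b w) : γ 0 = w := by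
  rw [h.eq, map_zero, zero_add]

theorem Rep.ch_eq {γ : V m ≃ᵃ[ℂ] V m} {a b : ZMod m} {w : V m} (h : Rep γ a b w) :
    ch γ = ZMod.stdAddChar a := by
  rw [ch, h.zero]
  have := h.cong (j0 m) 0
  rw [lam_j0] at this
  exact exp_of_cong this

/-- The factor of automorphy. -/
noncomputable def fac (n : ℕ) (T : Finset (Q m)) (γ : V m ≃ᵃ[ℂ] V m) (v : V m) : ℂ :=
  ch γ ^ n * ∏ j ∈ T, ∏ i, ep (m * (γ 0).1 j i) (m * ((γ v).1 j i - (γ 0).1 j i))

theorem Rep.fac_eq {γ : V m ≃ᵃ[ℂ] V m} {a b : ZMod m} {w : V m} (h : Rep γ a b w) (n : ℕ)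
    (T : Finset (Q m)) (v : V m) :
    fac n T γ v = (ZMod.stdAddChar a : ℂ) ^ n *
      ∏ j ∈ T, ∏ i, ep (m * w.1 j i) (m * v.1 j (i - chi j a b)) := by
  rw [fac, h.ch_eq]
  congr 1
  refine Finset.prod_congr rfl fun j _ => Finset.prod_congr rfl fun i _ => ?_
  have h2 : (γ v).1 j i = v.1 j (i - chi j a b) + w.1 j i := by
    rw [h.eq v]
    rfl
  rw [h.zero, h2, add_sub_cancel_right]

theorem fac_ne (n : ℕ) (T : Finset (Q m)) (γ : V m ≃ᵃ[ℂ] V m) (v : V m) : fac n T γ v ≠ 0 :=
  mul_ne_zero (pow_ne_zero _ (Complex.exp_ne_zero _)) (Finset.prod_ne_zero_iff.2 fun _ _ =>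
    Finset.prod_ne_zero_iff.2 fun _ _ => Complex.exp_ne_zero _)

theorem fac_mul (n : ℕ) (T : Finset (Q m)) {γ δ : V m ≃ᵃ[ℂ] V m} (hγ : γ ∈ Gam m)
    (hδ : δ ∈ Gam m) (v : V m) : fac n T (γ * δ) v = fac n T γ (δ v) * fac n T δ v := by
  obtain ⟨a, b, w, h⟩ := hγ
  obtain ⟨a', b', w', h'⟩ := hδ
  rw [(h.mul h').fac_eq, h.fac_eq, h'.fac_eq, AddChar.map_add_eq_mul, mul_pow,
    mul_mul_mul_comm, ← Finset.prod_mul_distrib]
  congr 1
  refine Finset.prod_congr rfl fun j _ => ?_
  have h2 : ∏ i, ep (m * w'.1 j i) (m * v.1 j (i - chi j a' b'))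
      = ∏ i, ep (m * w'.1 j (i - chi j a b)) (m * v.1 j (i - chi j a b - chi j a' b')) :=
    (Equiv.prod_comp (Equiv.subRight (chi j a b))
      fun i => ep (m * w'.1 j i) (m * v.1 j (i - chi j a' b'))).symm
  rw [h2, ← Finset.prod_mul_distrib]
  refine Finset.prod_congr rfl fun i _ => ?_
  have h3 : (δ v).1 j (i - chi j a b)
      = v.1 j (i - chi j a b - chi j a' b') + w'.1 j (i - chi j a b) := by
    rw [h'.eq v]
    rfl
  have h4 : (A a b w' + w).1 j i = w'.1 j (i - chi j a b) + w.1 j i := rfl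
  rw [h3, h4, chi_add, ← sub_sub, mul_add, mul_add,
    ep_add (h.cong j i).gauss (h'.cong j _).gauss]

theorem coord_holo (j : Q m) (i : ZMod m) : Differentiable ℂ fun v : V m => v.1 j i :=
  (((ContinuousLinearMap.proj (R := ℂ) (φ := fun _ : ZMod m => ℂ) i).comp
    (ContinuousLinearMap.proj (R := ℂ) (φ := fun _ : Q m => ZMod m → ℂ) j)).comp
      (S m).subtypeL).differentiable

theorem ep_holo (b c : ℂ) : Differentiable ℂ fun z : ℂ => ep b (m * (z - c)) := by
  simp only [ep, H1]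
  exact (((((((differentiable_id.sub_const _).const_mul _).mul_const _).const_mul _).const_mul _
    ).add_const _)).cexp

variable (m) in
/-- The line bundles. -/
noncomputable def LL (n : ℕ) (T : Finset (Q m)) : LineBundle (Gam m) where
  e := fun γ v => fac n T γ.1 v
  holo := fun γ => by
    refine (prod_holo T (fun j (v : V m) =>
      ∏ i, ep (m * (γ.1 0).1 j i) (m * ((γ.1 v).1 j i - (γ.1 0).1 j i))) fun j _ => ?_).const_mul _
    refine prod_holo Finset.univ (fun i (v : V m) =>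
      ep (m * (γ.1 0).1 j i) (m * ((γ.1 v).1 j i - (γ.1 0).1 j i))) fun i _ => ?_
    exact (ep_holo _ _).comp ((coord_holo j i).comp (affine_differentiable γ.1))
  ne_zero := fun γ v => fac_ne _ _ _ _
  mul := fun γ δ v => fac_mul n T γ.2 δ.2 v
  stab := fun γ v h => by
    have h1 : (γ : V m ≃ᵃ[ℂ] V m) = 1 := free γ.2 h
    have h2 : Rep (1 : V m ≃ᵃ[ℂ] V m) 0 0 0 := ⟨fun j i => by
      have : lam j (0 : ZMod m) 0 = 0 := by simp [lam]
      rw [this]
      exact cong_zero_iff.2 isGauss_zero, fun v => by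
      rw [A_zero, add_zero]
      rfl⟩
    rw [h1, h2.fac_eq]
    have h3 : ∀ j : Q m, ∀ i, (0 : V m).1 j i = 0 := fun _ _ => rfl
    simp [h3, ep, H1]

/-- The Chern form. -/
noncomputable def HH (T : Finset (Q m)) (v w : V m) : ℂ :=
  ∑ j ∈ T, ∑ i, 2 * H1 (m * v.1 j i) (m * w.1 j i)

theorem HH_herm (T : Finset (Q m)) : IsHermitian (HH T : V m → V m → ℂ) := by
  refine ⟨fun u v w => ?_, fun a v w => ?_, fun v w => ?_⟩
  · rw [HH, HH, HH, ← Finset.sum_add_distrib]
    refine Finset.sum_congr rfl fun j _ => ?_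
    rw [← Finset.sum_add_distrib]
    refine Finset.sum_congr rfl fun i _ => ?_
    rw [← mul_add, ← H1_herm.add_left, ← mul_add]
    rfl
  · rw [HH, HH, Finset.mul_sum]
    refine Finset.sum_congr rfl fun j _ => ?_
    rw [Finset.mul_sum]
    refine Finset.sum_congr rfl fun i _ => ?_
    have : H1 (m * (a • v).1 j i) (m * w.1 j i) = a * H1 (m * v.1 j i) (m * w.1 j i) := by
      have e : (m : ℂ) * (a • v).1 j i = a • (m * v.1 j i) := by
        change (m : ℂ) * (a * v.1 j i) = a * (m * v.1 j i)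
        ring
      rw [e]
      exact H1_herm.smul_left a _ _
    rw [this]
    ring
  · rw [HH, HH, map_sum]
    refine Finset.sum_congr rfl fun j _ => ?_
    rw [map_sum]
    refine Finset.sum_congr rfl fun i _ => ?_
    rw [map_mul, map_ofNat, ← H1_herm.symm]

theorem HH_re (T : Finset (Q m)) (v : V m) :
    (HH T v v).re = ∑ j ∈ T, ∑ i, 2 * (H1 (m * v.1 j i) (m * v.1 j i)).re := by
  rw [HH, Complex.re_sum]
  refine Finset.sum_congr rfl fun j _ => ?_
  rw [Complex.re_sum]
  refine Finset.sum_congr rfl fun i _ => ?_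
  have : (2 : ℂ) = ((2 : ℝ) : ℂ) := by push_cast; rfl
  rw [this, Complex.re_ofReal_mul]

theorem HH_nef (T : Finset (Q m)) : IsNefForm (HH T : V m → V m → ℂ) := by
  intro v
  rw [HH_re]
  refine Finset.sum_nonneg fun j _ => Finset.sum_nonneg fun i _ => ?_
  rw [H1_re]
  have := Complex.normSq_nonneg (m * v.1 j i)
  positivity

theorem HH_pos {T : Finset (Q m)} {v : V m} {j : Q m} (hj : j ∈ T) {i : ZMod m}
    (h : v.1 j i ≠ 0) : 0 < (HH T v v).re := by
  rw [HH_re]
  have h0 : ∀ j i, 0 ≤ 2 * (H1 (m * v.1 j i) (m * v.1 j i)).re := by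
    intro j i
    rw [H1_re]
    have := Complex.normSq_nonneg (m * v.1 j i)
    positivity
  refine Finset.sum_pos' (fun j _ => Finset.sum_nonneg fun i _ => h0 j i) ⟨j, hj, ?_⟩
  refine Finset.sum_pos' (fun i _ => h0 j i) ⟨i, Finset.mem_univ _, ?_⟩
  rw [H1_re]
  have := Complex.normSq_pos.2 (mul_ne_zero (m_ne (m := m)) h)
  positivity

theorem chern (n : ℕ) (T : Finset (Q m)) : IsChernForm (LL m n T) (HH T) := by
  refine ⟨HH_herm T, fun _ => 0, differentiable_const _, ?_⟩
  rintro ⟨γ, a, b, w, h⟩ v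
  change ‖fac n T γ v‖ ^ 2 = Real.exp (Real.pi * (HH T (γ v) (γ v)).re
      + 2 * (0 : ℂ).re - (Real.pi * (HH T v v).re + 2 * (0 : ℂ).re))
  have h1 : ‖(ZMod.stdAddChar a : ℂ)‖ = 1 := by
    rw [ZMod.stdAddChar_apply]
    exact Circle.norm_coe _
  have h2 : ∀ j i, ‖ep (m * w.1 j i) (m * v.1 j (i - chi j a b))‖ ^ 2 = Real.exp (Real.pi *
      (2 * (H1 (m * (γ v).1 j i) (m * (γ v).1 j i)).re
        - 2 * (H1 (m * v.1 j (i - chi j a b)) (m * v.1 j (i - chi j a b))).re)) := by
    intro j i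
    have h3 : (γ v).1 j i = v.1 j (i - chi j a b) + w.1 j i := by
      rw [h.eq v]
      rfl
    rw [h3, mul_add, TQ.h_diag_add H1_herm, ep, Complex.norm_exp, ← Real.exp_nat_mul]
    congr 1
    have h4 : (2 * Real.pi * H1 (m * v.1 j (i - chi j a b)) (m * w.1 j i)
        + Real.pi * H1 (m * w.1 j i) (m * w.1 j i) : ℂ).re
        = 2 * Real.pi * (H1 (m * v.1 j (i - chi j a b)) (m * w.1 j i)).re
          + Real.pi * (H1 (m * w.1 j i) (m * w.1 j i)).re := by
      have : (2 * Real.pi : ℂ) = ((2 * Real.pi : ℝ) : ℂ) := by push_cast; rfl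
      rw [Complex.add_re, this, Complex.re_ofReal_mul, Complex.re_ofReal_mul]
    rw [h4]
    push_cast
    ring
  have h5 : ∀ j, ∑ i, 2 * (H1 (m * v.1 j i) (m * v.1 j i)).re
      = ∑ i, 2 * (H1 (m * v.1 j (i - chi j a b)) (m * v.1 j (i - chi j a b))).re := fun j =>
    (Equiv.sum_comp (Equiv.subRight (chi j a b))
      fun i => 2 * (H1 (m * v.1 j i) (m * v.1 j i)).re).symm
  rw [h.fac_eq, norm_mul, norm_pow, h1, one_pow, one_mul, norm_prod, ← Finset.prod_pow,
    Finset.prod_congr rfl fun j _ => show ‖∏ i, ep (m * w.1 j i) (m * v.1 j (i - chi j a b))‖ ^ 2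
      = Real.exp (∑ i, Real.pi * (2 * (H1 (m * (γ v).1 j i) (m * (γ v).1 j i)).re
        - 2 * (H1 (m * v.1 j (i - chi j a b)) (m * v.1 j (i - chi j a b))).re)) by
      rw [norm_prod, ← Finset.prod_pow, Finset.prod_congr rfl fun i _ => h2 j i, ← Real.exp_sum],
    ← Real.exp_sum, HH_re, HH_re, Finset.sum_congr rfl fun j _ => h5 j]
  congr 1
  simp only [Finset.sum_sub_distrib, ← Finset.mul_sum, Complex.zero_re]
  ring

/-- The functions with the factors of level two. -/
theorem th_key (α : ℂ) {b : ℂ} (hb : IsGauss b) (z : ℂ) :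
    th (z + b + α) * th (z + b - α) = ep b z * (th (z + α) * th (z - α)) := by
  have e1 : z + b + α = (z + α) + b := by ring
  have e2 : z + b - α = (z - α) + b := by ring
  rw [e1, e2, th_add _ hb, th_add _ hb, mul_mul_mul_comm, ← Complex.exp_add, ep]
  congr 2
  simp only [H1]
  ring

/-- A common parameter. -/
theorem exists_par {ι : Type*} (s : Finset ι) (x : ι → ℂ) :
    ∃ α : ℂ, ∀ i ∈ s, th (x i + α) * th (x i - α) ≠ 0 := by
  classical
  have hd : ∀ i, Differentiable ℂ fun α : ℂ => th (x i + α) * th (x i - α) := fun i =>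
    (th_holo.comp (differentiable_id.const_add (x i))).mul
      (th_holo.comp (differentiable_id.const_sub (x i)))
  have h0 : th 0 ≠ 0 := th_good.zero_ne
  have hn : ∀ i, ∃ α : ℂ, th (x i + α) * th (x i - α) ≠ 0 := by
    intro i
    obtain ⟨α, h1, h2⟩ := exists_common (th_holo.comp (differentiable_id.const_add (x i)))
      (th_holo.comp (differentiable_id.const_sub (x i))) ⟨-x i, by
        change th (x i + -x i) ≠ 0
        rwa [add_neg_cancel]⟩ ⟨x i, by
        change th (x i - x i) ≠ 0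
        rwa [sub_self]⟩
    exact ⟨α, mul_ne_zero h1 h2⟩
  have key : ∃ α : ℂ, ∏ i ∈ s, (th (x i + α) * th (x i - α)) ≠ 0 := by
    induction s using Finset.induction_on with
    | empty => exact ⟨0, by simp⟩
    | insert i s hi ih =>
      obtain ⟨α, h1, h2⟩ := exists_common (hd i) (prod_holo s (fun i (α : ℂ) =>
        th (x i + α) * th (x i - α)) fun i _ => hd i) (hn i) ih
      exact ⟨α, by rw [Finset.prod_insert hi]; exact mul_ne_zero h1 h2⟩
  obtain ⟨α, h⟩ := key
  exact ⟨α, fun i hi => Finset.prod_ne_zero_iff.1 h i hi⟩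

/-- The powers with exponents divisible by `m` are base point free. -/
theorem bpf_of_dvd {k : ℕ} (hk : m ∣ k) (T : Finset (Q m)) :
    BasePointFree ((LL m 1 T).pow k) := by
  intro v
  obtain ⟨α, hα⟩ := exists_par (Finset.univ : Finset (Q m × ZMod m))
    fun p => (m : ℂ) * v.1 p.1 p.2
  refine ⟨fun x => (∏ j ∈ T, ∏ i, (th (m * x.1 j i + α) * th (m * x.1 j i - α))) ^ k,
    ⟨?_, ?_⟩, ?_⟩
  · refine (prod_holo T (fun j (x : V m) => ∏ i, (th (m * x.1 j i + α) * th (m * x.1 j i - α)))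
      fun j _ => prod_holo Finset.univ (fun i (x : V m) =>
        th (m * x.1 j i + α) * th (m * x.1 j i - α)) fun i _ => ?_).pow k
    exact (th_holo.comp (((coord_holo j i).const_mul _).add_const _)).mul
      (th_holo.comp (((coord_holo j i).const_mul _).sub_const _))
  · rintro ⟨γ, a, b, w, h⟩ x
    change (∏ j ∈ T, ∏ i, (th (m * (γ x).1 j i + α) * th (m * (γ x).1 j i - α))) ^ k
      = fac 1 T γ x ^ k * (∏ j ∈ T, ∏ i, (th (m * x.1 j i + α) * th (m * x.1 j i - α))) ^ k
    have h1 : ((ZMod.stdAddChar a : ℂ) ^ 1) ^ k = 1 := by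
      rw [pow_one, ← AddChar.map_nsmul_eq_pow, nsmul_eq_mul, (ZMod.natCast_eq_zero_iff k m).2 hk,
        zero_mul, AddChar.map_zero_eq_one]
    rw [h.fac_eq, mul_pow, h1, one_mul, ← mul_pow]
    congr 1
    rw [← Finset.prod_mul_distrib]
    refine Finset.prod_congr rfl fun j _ => ?_
    rw [← Equiv.prod_comp (Equiv.subRight (chi j a b))
      fun i => th (m * x.1 j i + α) * th (m * x.1 j i - α), ← Finset.prod_mul_distrib]
    refine Finset.prod_congr rfl fun i _ => ?_
    have h3 : (γ x).1 j i = x.1 j (i - chi j a b) + w.1 j i := by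
      rw [h.eq x]
      rfl
    rw [h3, mul_add, th_key α (h.cong j i).gauss]
    rfl
  · exact pow_ne_zero _ (Finset.prod_ne_zero_iff.2 fun j _ => Finset.prod_ne_zero_iff.2 fun i _ =>
      hα (j, i) (Finset.mem_univ _))

/-- The projection which forgets the block `jB`. -/
noncomputable def pr : V m →ₗ[ℂ] V m := by
  classical
  exact
    { toFun := fun v => ⟨fun j => if j = jB m then 0 else v.1 j, fun j => by
        by_cases h : j = jB m
        · simp [h]
        · simp only [h, if_false]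
          exact v.2 j⟩
      map_add' := fun v w => ext_V fun j i => by
        change (if j = jB m then (0 : ZMod m → ℂ) else (v + w).1 j) i
          = (if j = jB m then (0 : ZMod m → ℂ) else v.1 j) i
            + (if j = jB m then (0 : ZMod m → ℂ) else w.1 j) i
        by_cases h : j = jB m
        · simp [h]
        · simp only [h, if_false]
          rfl
      map_smul' := fun c v => ext_V fun j i => by
        change (if j = jB m then (0 : ZMod m → ℂ) else (c • v).1 j) i
          = c * (if j = jB m then (0 : ZMod m → ℂ) else v.1 j) i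
        by_cases h : j = jB m
        · simp [h]
        · simp only [h, if_false]
          rfl }

theorem pr_B (v : V m) (i : ZMod m) : (pr v).1 (jB m) i = 0 := by
  classical
  change (if jB m = jB m then (0 : ZMod m → ℂ) else v.1 (jB m)) i = 0
  rw [if_pos rfl]
  rfl

theorem pr_eq (v : V m) {j : Q m} (h : j ≠ jB m) (i : ZMod m) : (pr v).1 j i = v.1 j i := by
  classical
  change (if j = jB m then (0 : ZMod m → ℂ) else v.1 j) i = _
  rw [if_neg h]

theorem pr_self {v : V m} (h : ∀ i, v.1 (jB m) i = 0) : pr v = v := by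
  refine ext_V fun j i => ?_
  by_cases hj : j = jB m
  · subst hj
    rw [pr_B, h]
  · rw [pr_eq v hj]

/-- Only the powers with exponents divisible by `m` have a section which does not vanish at the
origin. -/
theorem dvd_of_bpf {k : ℕ} (hk : BasePointFree ((LL m 1 {jB m}).pow k)) : m ∣ k := by
  obtain ⟨s, hs, hs0⟩ := hk 0
  have hdiff : Differentiable ℂ fun v : V m => pr v :=
    (LinearMap.toContinuousLinearMap (pr : V m →ₗ[ℂ] V m)).differentiable
  have hfac : ∀ {γ : V m ≃ᵃ[ℂ] V m} {a b : ZMod m} {w : V m}, Rep γ a b w →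
      (∀ i, w.1 (jB m) i = 0) → ∀ v, fac 1 {jB m} γ v = ZMod.stdAddChar a := by
    intro γ a b w h hw v
    rw [h.fac_eq, Finset.prod_singleton, Finset.prod_eq_one, mul_one, pow_one]
    intro i _
    rw [hw i]
    simp [ep, H1]
  have hper : ∀ b ∈ Lam m, ∀ v, s (pr (b + v)) = s (pr v) := by
    intro b hb v
    have hb' : IsG (pr b) := by
      intro j i
      by_cases hj : j = jB m
      · subst hj
        rw [pr_B]
        exact isGauss_zero
      · rw [pr_eq b hj]
        exact hb j i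
    obtain ⟨γ, h⟩ := hb'.rep
    have h1 := hs.eq ⟨γ, 0, 0, _, h⟩ (pr v)
    change s (γ (pr v)) = fac 1 {jB m} γ (pr v) ^ k * s (pr v) at h1
    rw [hfac h (pr_B b), AddChar.map_zero_eq_one, one_pow, one_mul, h.eq, A_zero] at h1
    rw [map_add, add_comm]
    exact h1
  have hc := TQ.const_of_periodic (Lam m) span_Lam (fun v => s (pr v)) (hs.holo.comp hdiff) hper
  obtain ⟨w, hw, hw0⟩ := exists_vec (m := m) 1 0
  obtain ⟨γ, h⟩ := exists_rep 1 0 w hw
  have hwB : ∀ i, w.1 (jB m) i = 0 := hw0 (jB m) (lam_jB 1 0)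
  have h1 := hs.eq ⟨γ, 1, 0, _, h⟩ 0
  change s (γ 0) = fac 1 {jB m} γ 0 ^ k * s 0 at h1
  rw [hfac h hwB, h.zero] at h1
  have h2 := hc w 0
  simp only [pr_self hwB, map_zero] at h2
  rw [h2] at h1
  have h3 : (ZMod.stdAddChar (1 : ZMod m) : ℂ) ^ k = 1 :=
    (mul_right_cancel₀ hs0 ((one_mul _).trans h1)).symm
  rw [← AddChar.map_nsmul_eq_pow, ← AddChar.map_zero_eq_one
    (ψ := (ZMod.stdAddChar : AddChar (ZMod m) ℂ))] at h3
  have h4 := ZMod.injective_stdAddChar h3
  rw [nsmul_eq_mul, mul_one] at h4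
  exact (ZMod.natCast_eq_zero_iff k m).1 h4

theorem pos_univ : IsPositiveForm (HH Finset.univ : V m → V m → ℂ) := by
  intro v hv
  obtain ⟨j, i, h⟩ : ∃ j i, v.1 j i ≠ 0 := by
    by_contra hcon
    push Not at hcon
    exact hv (ext_V hcon)
  exact HH_pos (Finset.mem_univ j) h

end Q36.EI
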