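import Pool.Agent.Q36.EI.Grp

/-!
# The determinants, and `H^1(X, O_X)`
-/

set_option autoImplicit false
set_option linter.unusedSectionVars false

namespace Q36.EI

open Pool.Agent.W594.SYZ2 Pool.Agent.TH735.AQ Pool.Agent.Y167
open Q276.SYZ (IsGauss isGauss_zero isGauss_one gauss_small isGauss_int)

variable {m : ℕ} [NeZero m]

/-- The determinant of a linear part. -/
noncomputable def D (a b : ZMod m) : ℂ := LinearMap.det (A a b : V m →ₗ[ℂ] V m)

theorem D_add (a b a' b' : ZMod m) : D (a + a') (b + b') = D a b * D a' b' := by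
  rw [D, D, D, ← LinearMap.det_comp]
  congr 1
  exact LinearMap.ext fun v => A_add a b a' b' v

theorem D_zero : D (0 : ZMod m) 0 = 1 := by
  have : (A 0 0 : V m →ₗ[ℂ] V m) = LinearMap.id := LinearMap.ext fun v => A_zero v
  rw [D, this, LinearMap.det_id]

theorem D_ne (a b : ZMod m) : D a b ≠ 0 := by
  intro h
  have h1 := D_add a b (-a) (-b)
  rw [add_neg_cancel, add_neg_cancel, D_zero, h, zero_mul] at h1
  exact one_ne_zero h1

/-- The product of matrices. -/
def mulR (N j : Q m) : Q m :=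
  ⟨(j.1.1 * N.1.1 + j.1.2.1 * N.1.2.2.1, j.1.1 * N.1.2.1 + j.1.2.1 * N.1.2.2.2,
    j.1.2.2.1 * N.1.1 + j.1.2.2.2 * N.1.2.2.1, j.1.2.2.1 * N.1.2.1 + j.1.2.2.2 * N.1.2.2.2), by
    have h1 := N.2
    have h2 := j.2
    simp only
    linear_combination (j.1.1 * j.1.2.2.2 - j.1.2.1 * j.1.2.2.1) * h1 + h2⟩

/-- The inverse matrix. -/
def inv (N : Q m) : Q m := ⟨(N.1.2.2.2, -N.1.2.1, -N.1.2.2.1, N.1.1), by
  have h1 := N.2
  simp only
  linear_combination h1⟩

theorem mulR_inv (N j : Q m) : mulR N (mulR (inv N) j) = j := by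
  have h1 := N.2
  apply Subtype.ext
  refine Prod.ext ?_ (Prod.ext ?_ (Prod.ext ?_ ?_))
  · simp only [mulR, inv]
    linear_combination j.1.1 * h1
  · simp only [mulR, inv]
    linear_combination j.1.2.1 * h1
  · simp only [mulR, inv]
    linear_combination j.1.2.2.1 * h1
  · simp only [mulR, inv]
    linear_combination j.1.2.2.2 * h1

theorem chi_mulR (N j : Q m) (a b : ZMod m) :
    chi (mulR N j) a b = chi j (chi N a b) (lam N a b) := by
  simp only [chi, lam, mulR]
  ring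

/-- The permutation of the blocks. -/
def P (N : Q m) : V m →ₗ[ℂ] V m where
  toFun v := ⟨fun j => v.1 (mulR N j), fun j => v.2 _⟩
  map_add' _ _ := rfl
  map_smul' _ _ := rfl

theorem P_apply (N : Q m) (v : V m) (j : Q m) (i : ZMod m) : (P N v).1 j i = v.1 (mulR N j) i :=
  rfl

theorem P_ne (N : Q m) : LinearMap.det (P N : V m →ₗ[ℂ] V m) ≠ 0 := by
  have h1 : P (inv N) ∘ₗ P N = (LinearMap.id : V m →ₗ[ℂ] V m) :=
    LinearMap.ext fun v => ext_V fun j i => by
      change v.1 (mulR N (mulR (inv N) j)) i = v.1 j i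
      rw [mulR_inv]
  have h2 := congrArg LinearMap.det h1
  rw [LinearMap.det_comp, LinearMap.det_id] at h2
  exact right_ne_zero_of_mul_eq_one h2

theorem D_inv (N : Q m) (a b : ZMod m) : D a b = D (chi N a b) (lam N a b) := by
  have h1 : P N ∘ₗ A a b = (A (chi N a b) (lam N a b) ∘ₗ P N : V m →ₗ[ℂ] V m) :=
    LinearMap.ext fun v => ext_V fun j i => by
      change v.1 (mulR N j) (i - chi (mulR N j) a b) = v.1 (mulR N j) (i - chi j _ _)
      rw [chi_mulR]
  have h2 := congrArg LinearMap.det h1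
  rw [LinearMap.det_comp, LinearMap.det_comp, mul_comm] at h2
  exact mul_right_cancel₀ (P_ne N) h2

/-- All determinants are `1`. -/
theorem D_eq (a b : ZMod m) : D a b = 1 := by
  have h1 : ∀ c : ZMod m, D 0 c = 1 := by
    intro c
    have h2 := D_inv (m := m) ⟨(1, 0, c, 1), by simp⟩ 1 0
    have e1 : chi (⟨(1, 0, c, 1), by simp⟩ : Q m) 1 0 = 1 + 0 := by simp [chi]
    have e2 : lam (⟨(1, 0, c, 1), by simp⟩ : Q m) 1 0 = 0 + c := by simp [lam]
    rw [e1, e2, D_add] at h2
    exact (mul_left_cancel₀ (D_ne 1 0) ((mul_one _).trans h2)).symm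
  have h3 : ∀ c : ZMod m, D c 0 = 1 := by
    intro c
    have h2 := D_inv (m := m) ⟨(1, c, 0, 1), by simp⟩ 0 1
    have e1 : chi (⟨(1, c, 0, 1), by simp⟩ : Q m) 0 1 = c + 0 := by simp [chi]
    have e2 : lam (⟨(1, c, 0, 1), by simp⟩ : Q m) 0 1 = 0 + 1 := by simp [lam]
    rw [e1, e2, D_add] at h2
    exact (mul_right_cancel₀ (D_ne 0 1) ((one_mul _).trans h2)).symm
  have h4 := D_add a 0 0 b
  rw [add_zero, zero_add, h1, h3, mul_one] at h4
  exact h4

theorem det_eq {γ : V m ≃ᵃ[ℂ] V m} (hγ : γ ∈ Gam m) :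
    LinearMap.det (γ.linear : V m →ₗ[ℂ] V m) = 1 := by
  obtain ⟨a, b, w, h⟩ := hγ
  have : (γ.linear : V m →ₗ[ℂ] V m) = A a b := LinearMap.ext fun v => h.linear v
  rw [this]
  exact D_eq a b

/-- The sum over the powers of a shift of an elementary vector is zero. -/
theorem sum_A (j : Q m) (i : ZMod m) (z : ℂ) :
    ∑ k : ZMod m, A (k * j.1.2.2.2) (k * -j.1.2.2.1) (el j i z) = 0 := by
  classical
  refine ext_V fun j' i' => ?_
  have e1 : (∑ k : ZMod m, A (k * j.1.2.2.2) (k * -j.1.2.2.1) (el j i z)).1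
      = ∑ k : ZMod m, (A (k * j.1.2.2.2) (k * -j.1.2.2.1) (el j i z)).1 := by
    push_cast
    rfl
  rw [e1, Finset.sum_apply, Finset.sum_apply]
  change ∑ k : ZMod m, (el j i z).1 j' (i' - chi j' (k * j.1.2.2.2) (k * -j.1.2.2.1)) = 0
  by_cases hj : j' = j
  · subst hj
    have h1 : ∀ k : ZMod m, chi j' (k * j'.1.2.2.2) (k * -j'.1.2.2.1) = k := by
      intro k
      have := j'.2
      simp only [chi]
      linear_combination k * this
    simp only [h1]
    rw [← (el j' i z).sum j']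
    exact Equiv.sum_comp (Equiv.subLeft i') fun x => (el j' i z).1 j' x
  · refine Finset.sum_eq_zero fun k _ => ?_
    rw [el_apply]
    simp [hj]

/-- `H^1(X, O_X) = 0`. -/
theorem hone : HOneZero (Gam m) := by
  intro ℓ hℓ
  have hA : ∀ (a b : ZMod m) (v : V m), ℓ (A a b v) = ℓ v := by
    intro a b v
    obtain ⟨w, hw, -⟩ := exists_vec (m := m) a b
    obtain ⟨γ, h⟩ := exists_rep a b w hw
    have := hℓ γ ⟨a, b, w, h⟩ v
    rwa [h.linear] at this
  apply LinearMap.ext
  intro v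
  rw [decomp v, map_sum]
  refine Finset.sum_eq_zero fun j _ => ?_
  rw [map_sum]
  refine Finset.sum_eq_zero fun i _ => ?_
  have h1 := congrArg ℓ (sum_A j i (v.1 j i))
  rw [map_sum, map_zero, Finset.sum_congr rfl fun k _ => hA _ _ _, Finset.sum_const,
    Finset.card_univ, ZMod.card, nsmul_eq_mul] at h1
  exact (mul_eq_zero.1 h1).resolve_left m_ne

end Q36.EI
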