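import Pool.Agent.Q47.EB.Ex3

/-!
# Smooth torus quotients with trivial canonical bundle and `H^1(X, O_X) = 0`
-/

set_option autoImplicit false
set_option linter.unusedSectionVars false

namespace Q36.EI

open Pool.Agent.W594.SYZ2 Pool.Agent.TH735.AQ Pool.Agent.Y167
open Q276.SYZ (IsGauss isGauss_zero isGauss_one gauss_small isGauss_int)
open Q47.EB.Ex (gauss_mul gauss_conj gauss_re gauss_im gauss_sum)

variable {m : ℕ} [NeZero m]

theorem m_ne : (m : ℂ) ≠ 0 := by exact_mod_cast NeZero.ne m

/-! ### Congruences -/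

/-- `z` is congruent to `c / m` modulo the Gaussian integers. -/
def Cong (z : ℂ) (c : ZMod m) : Prop := ∃ n : ℤ, (n : ZMod m) = c ∧ IsGauss (z - n / m)

theorem Cong.add {z z' : ℂ} {c c' : ZMod m} (h : Cong z c) (h' : Cong z' c') :
    Cong (z + z') (c + c') := by
  obtain ⟨n, hn, h1⟩ := h
  obtain ⟨n', hn', h1'⟩ := h'
  refine ⟨n + n', by push_cast; rw [hn, hn'], ?_⟩
  have := h1.add h1'
  have e : z + z' - ((n + n' : ℤ) : ℂ) / m = z - n / m + (z' - n' / m) := by
    push_cast
    ring
  rwa [e]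

theorem Cong.neg {z : ℂ} {c : ZMod m} (h : Cong z c) : Cong (-z) (-c) := by
  obtain ⟨n, hn, h1⟩ := h
  refine ⟨-n, by push_cast; rw [hn], ?_⟩
  have := h1.neg
  have e : -z - ((-n : ℤ) : ℂ) / m = -(z - n / m) := by
    push_cast
    ring
  rwa [e]

theorem cong_zero_iff {z : ℂ} : Cong z (0 : ZMod m) ↔ IsGauss z := by
  constructor
  · rintro ⟨n, hn, h⟩
    rw [ZMod.intCast_zmod_eq_zero_iff_dvd] at hn
    obtain ⟨l, rfl⟩ := hn
    have := h.add (isGauss_int l)
    have e : z - (((m : ℤ) * l : ℤ) : ℂ) / m + l = z := by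
      have := m_ne (m := m)
      push_cast
      field_simp
      ring
    rwa [e] at this
  · intro h
    exact ⟨0, by simp, by simpa using h⟩

theorem Cong.gauss {z : ℂ} {c : ZMod m} (h : Cong z c) : IsGauss (m * z) := by
  obtain ⟨n, -, h⟩ := h
  have h1 := (gauss_mul (isGauss_int m) h).add (isGauss_int n)
  have e : ((m : ℤ) : ℂ) * (z - n / m) + n = m * z := by
    have := m_ne (m := m)
    push_cast
    field_simp
    ring
  rwa [e] at h1

theorem cong_val (c : ZMod m) : Cong ((c.val : ℂ) / m) c :=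
  ⟨c.val, by simp, by simpa using isGauss_zero⟩

theorem cong_sub_int {z : ℂ} {c : ZMod m} (h : Cong z c) (n : ℤ) : Cong (z - n) c := by
  have h1 := h.add (cong_zero_iff.2 (isGauss_int (-n)) : Cong ((-n : ℤ) : ℂ) (0 : ZMod m))
  rw [add_zero] at h1
  have e : z - n = z + ((-n : ℤ) : ℂ) := by push_cast; ring
  rwa [e]

/-- `z` is congruent to only one `c / m`; here for `z = 0`. -/
theorem eq_zero_of_cong {c : ZMod m} (h : Cong 0 c) : c = 0 := by
  obtain ⟨n, hn, p, q, h⟩ := h
  have hm := m_ne (m := m)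
  have h1 : (n : ℂ) = -(m * (p + q * Complex.I)) := by
    rw [← h]
    field_simp
    ring
  have h2 := congrArg Complex.re h1
  simp only [Complex.intCast_re, Complex.neg_re, Complex.mul_re, Complex.natCast_re, Complex.add_re,
    Complex.I_re, mul_zero, Complex.intCast_im, Complex.I_im, mul_one, sub_self, add_zero,
    Complex.natCast_im, zero_mul, sub_zero] at h2
  have h3 : n = -(m * p) := by
    exact_mod_cast h2
  rw [← hn, h3]
  push_cast
  simp

/-- The value of the character. -/
theorem exp_of_cong {z : ℂ} {c : ZMod m} (h : Cong z c) :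
    Complex.exp (2 * Real.pi * Complex.I * (z.re : ℝ)) = ZMod.stdAddChar c := by
  obtain ⟨n, rfl, p, q, h⟩ := h
  rw [ZMod.stdAddChar_coe]
  have h1 : z = n / m + (p + q * Complex.I) := by rw [← h]; ring
  have h2 : z.re = (n : ℝ) / m + p := by
    have : (n : ℂ) / m = (((n : ℝ) / m : ℝ) : ℂ) := by push_cast; rfl
    rw [h1, this]
    simp
  rw [h2, Complex.exp_eq_exp_iff_exists_int]
  refine ⟨p, ?_⟩
  push_cast
  ring

/-! ### The vector space and the group -/

variable (m) in
/-- The matrices with entries in `ℤ / m` and determinant `1`. -/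
abbrev Q : Type := {q : ZMod m × ZMod m × ZMod m × ZMod m // q.1 * q.2.2.2 - q.2.1 * q.2.2.1 = 1}

/-- The first coordinate of the product with the vector `(a, b)`. -/
def chi (j : Q m) (a b : ZMod m) : ZMod m := j.1.1 * a + j.1.2.1 * b

/-- The second coordinate of the product with the vector `(a, b)`. -/
def lam (j : Q m) (a b : ZMod m) : ZMod m := j.1.2.2.1 * a + j.1.2.2.2 * b

theorem chi_add (j : Q m) (a b a' b' : ZMod m) :
    chi j (a + a') (b + b') = chi j a b + chi j a' b' := by
  simp only [chi]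
  ring

theorem lam_add (j : Q m) (a b a' b' : ZMod m) :
    lam j (a + a') (b + b') = lam j a b + lam j a' b' := by
  simp only [lam]
  ring

variable (m) in
/-- The functions with sum zero in every block. -/
def S : Submodule ℂ (Q m → ZMod m → ℂ) where
  carrier := {v | ∀ j, ∑ i, v j i = 0}
  zero_mem' := fun j => by simp
  add_mem' := fun {v w} hv hw j => by
    change ∑ i, (v j i + w j i) = 0
    rw [Finset.sum_add_distrib, hv j, hw j, add_zero]
  smul_mem' := fun c v hv j => by
    change ∑ i, c * v j i = 0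
    rw [← Finset.mul_sum, hv j, mul_zero]

variable (m) in
/-- The vector space. -/
abbrev V : Type := S m

theorem V.sum (v : V m) (j : Q m) : ∑ i, v.1 j i = 0 := v.2 j

theorem sum_shift {α : Type*} [AddCommMonoid α] (f : ZMod m → α) (c : ZMod m) :
    ∑ i, f (i - c) = ∑ i, f i := Equiv.sum_comp (Equiv.subRight c) f

/-- The linear parts. -/
def A (a b : ZMod m) : V m →ₗ[ℂ] V m where
  toFun v := ⟨fun j i => v.1 j (i - chi j a b), fun j => by
    rw [sum_shift (fun i => v.1 j i)]
    exact v.2 j⟩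
  map_add' _ _ := rfl
  map_smul' _ _ := rfl

theorem A_apply (a b : ZMod m) (v : V m) (j : Q m) (i : ZMod m) :
    (A a b v).1 j i = v.1 j (i - chi j a b) := rfl

theorem ext_V {v w : V m} (h : ∀ j i, v.1 j i = w.1 j i) : v = w :=
  Subtype.ext (funext fun j => funext fun i => h j i)

theorem A_add (a b a' b' : ZMod m) (v : V m) : A (a + a') (b + b') v = A a b (A a' b' v) :=
  ext_V fun j i => by
    rw [A_apply, A_apply, A_apply, chi_add, sub_add_eq_sub_sub]

theorem A_zero (v : V m) : A 0 0 v = v :=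
  ext_V fun j i => by
    rw [A_apply]
    simp [chi]

/-- The transformation `v ↦ A v + w` with `w` congruent to `λ / m`. -/
structure Rep (γ : V m ≃ᵃ[ℂ] V m) (a b : ZMod m) (w : V m) : Prop where
  cong : ∀ j i, Cong (w.1 j i) (lam j a b)
  eq : ∀ v, γ v = A a b v + w

theorem Rep.mul {γ δ : V m ≃ᵃ[ℂ] V m} {a b a' b' : ZMod m} {w w' : V m} (h : Rep γ a b w)
    (h' : Rep δ a' b' w') : Rep (γ * δ) (a + a') (b + b') (A a b w' + w) where
  cong := fun j i => by
    have := (h'.cong j (i - chi j a b)).add (h.cong j i)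
    rw [lam_add, add_comm (lam j a b)]
    exact this
  eq := fun v => by
    change γ (δ v) = _
    rw [h.eq, h'.eq, map_add, A_add, add_assoc]

variable (m) in
/-- The group. -/
def Gam : Subgroup (V m ≃ᵃ[ℂ] V m) where
  carrier := {γ | ∃ (a b : ZMod m) (w : V m), Rep γ a b w}
  mul_mem' := by
    rintro γ δ ⟨a, b, w, h⟩ ⟨a', b', w', h'⟩
    exact ⟨_, _, _, h.mul h'⟩
  one_mem' := ⟨0, 0, 0, fun j i => by
    have : lam j 0 0 = 0 := by simp [lam]
    rw [this]
    exact cong_zero_iff.2 isGauss_zero, fun v => by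
    rw [A_zero, add_zero]
    rfl⟩
  inv_mem' := by
    rintro γ ⟨a, b, w, h⟩
    refine ⟨-a, -b, -(A (-a) (-b) w), fun j i => ?_, fun v => ?_⟩
    · have h1 : lam j (-a) (-b) = -lam j a b := by simp only [lam]; ring
      rw [h1]
      exact (h.cong j _).neg
    · change γ.symm v = _
      rw [AffineEquiv.symm_apply_eq, h.eq, map_add, map_neg, ← A_add, ← A_add, add_neg_cancel,
        add_neg_cancel, A_zero, A_zero, neg_add_cancel_right]

/-- The transformation with given data. -/
theorem exists_rep (a b : ZMod m) (w : V m) (hw : ∀ j i, Cong (w.1 j i) (lam j a b)) :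
    ∃ γ : V m ≃ᵃ[ℂ] V m, Rep γ a b w := by
  refine ⟨(LinearEquiv.ofLinearMap (A a b) (A (-a) (-b))
    (LinearMap.ext fun v => by
      change A a b (A (-a) (-b) v) = v
      rw [← A_add, add_neg_cancel, add_neg_cancel, A_zero])
    (LinearMap.ext fun v => by
      change A (-a) (-b) (A a b v) = v
      rw [← A_add, neg_add_cancel, neg_add_cancel, A_zero])).toAffineEquiv.trans
        (AffineEquiv.constVAdd ℂ (V m) w), hw, fun v => ?_⟩
  exact add_comm _ _

theorem Rep.linear {γ : V m ≃ᵃ[ℂ] V m} {a b : ZMod m} {w : V m} (h : Rep γ a b w) (v : V m) :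
    γ.linear v = A a b v := by
  have h1 := TQ.act γ v
  rw [h.eq v, h.eq 0, map_zero, zero_add] at h1
  exact (add_right_cancel h1).symm

/-- A translation vector for given `a`, `b`. -/
theorem exists_vec (a b : ZMod m) : ∃ w : V m, (∀ j i, Cong (w.1 j i) (lam j a b)) ∧
    ∀ j, lam j a b = 0 → ∀ i, w.1 j i = 0 := by
  classical
  refine ⟨⟨fun j i => ((lam j a b).val : ℂ) / m - if i = 0 then ((lam j a b).val : ℂ) else 0,
    fun j => ?_⟩, fun j i => ?_, fun j hj i => ?_⟩
  · rw [Finset.sum_sub_distrib, Finset.sum_ite_eq' Finset.univ (0 : ZMod m),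
      if_pos (Finset.mem_univ _), Finset.sum_const, Finset.card_univ, ZMod.card, nsmul_eq_mul,
      mul_div_cancel₀ _ m_ne, sub_self]
  · change Cong (((lam j a b).val : ℂ) / m - if i = 0 then ((lam j a b).val : ℂ) else 0) _
    by_cases hi : i = 0
    · rw [if_pos hi]
      exact cong_sub_int (cong_val _) (lam j a b).val
    · rw [if_neg hi, sub_zero]
      exact cong_val _
  · change ((lam j a b).val : ℂ) / m - (if i = 0 then ((lam j a b).val : ℂ) else 0) = 0
    rw [hj]
    simp

/-- For every nonzero vector some matrix makes the first coordinate zero, but not the second. -/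
theorem exists_matrix {a b : ZMod m} (h : ¬ (a = 0 ∧ b = 0)) :
    ∃ j : Q m, chi j a b = 0 ∧ lam j a b ≠ 0 := by
  obtain ⟨d, hd⟩ : ∃ d : ℕ, d = Nat.gcd a.val b.val := ⟨_, rfl⟩
  have hd0 : 0 < d := by
    rw [hd]
    rcases Nat.eq_zero_or_pos a.val with h0 | h0
    · rcases Nat.eq_zero_or_pos b.val with h1 | h1
      · exact absurd ⟨(ZMod.val_eq_zero a).1 h0, (ZMod.val_eq_zero b).1 h1⟩ h
      · exact Nat.gcd_pos_of_pos_right _ h1
    · exact Nat.gcd_pos_of_pos_left _ h0
  obtain ⟨α, hα⟩ : d ∣ a.val := hd ▸ Nat.gcd_dvd_left _ _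
  obtain ⟨β, hβ⟩ : d ∣ b.val := hd ▸ Nat.gcd_dvd_right _ _
  -- Bezout
  have hbez := Nat.gcd_eq_gcd_ab a.val b.val
  rw [← hd] at hbez
  obtain ⟨u, hu⟩ : ∃ u : ℤ, u = Nat.gcdA a.val b.val := ⟨_, rfl⟩
  obtain ⟨v, hv⟩ : ∃ v : ℤ, v = Nat.gcdB a.val b.val := ⟨_, rfl⟩
  rw [← hu, ← hv] at hbez
  have h1 : (α : ℤ) * u + β * v = 1 := by
    have hd' : (d : ℤ) ≠ 0 := by exact_mod_cast hd0.ne'
    apply mul_left_cancel₀ hd'
    rw [mul_one]
    conv_rhs => rw [hbez, hα, hβ]
    push_cast
    ring
  have ha : a = (d : ZMod m) * α := by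
    have := congrArg (fun x : ℕ => (x : ZMod m)) hα
    simpa using this
  have hb : b = (d : ZMod m) * β := by
    have := congrArg (fun x : ℕ => (x : ZMod m)) hβ
    simpa using this
  have h1' : (α : ZMod m) * u + β * v = 1 := by
    have := congrArg (fun x : ℤ => (x : ZMod m)) h1
    simpa using this
  refine ⟨⟨((β : ZMod m), -(α : ZMod m), (u : ZMod m), (v : ZMod m)), ?_⟩, ?_, ?_⟩
  · change (β : ZMod m) * v - -(α : ZMod m) * u = 1
    linear_combination h1'
  · change (β : ZMod m) * a + -(α : ZMod m) * b = 0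
    rw [ha, hb]
    ring
  · change (u : ZMod m) * a + (v : ZMod m) * b ≠ 0
    have h2 : (u : ZMod m) * a + (v : ZMod m) * b = d := by
      rw [ha, hb]
      linear_combination (d : ZMod m) * h1'
    rw [h2]
    intro h3
    exact h ⟨by rw [ha, h3, zero_mul], by rw [hb, h3, zero_mul]⟩

/-- The group acts freely. -/
theorem free {γ : V m ≃ᵃ[ℂ] V m} (hγ : γ ∈ Gam m) {v : V m} (hv : γ v = v) : γ = 1 := by
  obtain ⟨a, b, w, h⟩ := hγ
  have h1 := h.eq v
  rw [hv] at h1
  by_cases hab : a = 0 ∧ b = 0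
  · obtain ⟨rfl, rfl⟩ := hab
    rw [A_zero, eq_comm, add_eq_left] at h1
    apply AffineEquiv.ext
    intro x
    rw [h.eq, A_zero, h1, add_zero]
    rfl
  · exfalso
    obtain ⟨j, hj, hl⟩ := exists_matrix hab
    have h2 : v.1 j 0 = v.1 j (0 - chi j a b) + w.1 j 0 :=
      congrFun (congrFun (congrArg Subtype.val h1) j) 0
    rw [hj, sub_zero, eq_comm, add_eq_left] at h2
    have h3 := h.cong j 0
    rw [h2] at h3
    exact hl (eq_zero_of_cong h3)

/-- Gaussian vectors. -/
def IsG (v : V m) : Prop := ∀ j i, IsGauss (v.1 j i)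

theorem IsG.rep {w : V m} (hw : IsG w) : ∃ γ : V m ≃ᵃ[ℂ] V m, Rep γ 0 0 w :=
  exists_rep 0 0 w fun j i => by
    have : lam j 0 0 = 0 := by simp [lam]
    rw [this]
    exact cong_zero_iff.2 (hw j i)

variable (m) in
/-- The lattice of the Gaussian vectors. -/
def Lam : AddSubgroup (V m) where
  carrier := {v | IsG v}
  zero_mem' := fun _ _ => isGauss_zero
  add_mem' := fun h h' j i => (h j i).add (h' j i)
  neg_mem' := fun h j i => (h j i).neg

theorem latt_of_G {w : V m} (hw : IsG w) : w ∈ latt (Gam m) := by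
  rw [mem_latt]
  obtain ⟨γ, h⟩ := hw.rep
  have : AffineEquiv.constVAdd ℂ (V m) w = γ := by
    apply AffineEquiv.ext
    intro v
    rw [h.eq, A_zero, add_comm]
    rfl
  rw [this]
  exact ⟨0, 0, w, h⟩

theorem gauss_of_latt {w : V m} (hw : w ∈ latt (Gam m)) (j : Q m) (i : ZMod m) :
    IsGauss (m * w.1 j i) := by
  rw [mem_latt] at hw
  obtain ⟨a, b, w', h⟩ := hw
  have h0 : w = w' := by
    have h1 : w + 0 = A a b 0 + w' := h.eq 0
    rwa [add_zero, map_zero, zero_add] at h1
  rw [h0]
  exact (h.cong j i).gauss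

/-- The elementary vectors. -/
noncomputable def el (j : Q m) (i : ZMod m) (z : ℂ) : V m := by
  classical
  exact ⟨fun j' i' => (if j' = j ∧ i' = i then z else 0) - if j' = j ∧ i' = 0 then z else 0,
    fun j' => by
      rw [Finset.sum_sub_distrib]
      by_cases hj : j' = j
      · simp [hj]
      · simp [hj]⟩

theorem el_apply [DecidableEq (Q m)] (j : Q m) (i : ZMod m) (z : ℂ) (j' : Q m) (i' : ZMod m) :
    (el j i z).1 j' i' = (if j' = j ∧ i' = i then z else 0) - if j' = j ∧ i' = 0 then z else 0 := by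
  simp only [el]
  congr

theorem el_G (j : Q m) (i : ZMod m) {z : ℂ} (hz : IsGauss z) : IsG (el j i z) := by
  classical
  intro j' i'
  rw [el_apply]
  have h1 : ∀ P : Prop, [Decidable P] → IsGauss (if P then z else 0) := by
    intro P _
    by_cases h : P
    · rwa [if_pos h]
    · rw [if_neg h]
      exact isGauss_zero
  rw [sub_eq_add_neg]
  exact (h1 _).add (h1 _).neg

theorem decomp (v : V m) : v = ∑ j, ∑ i, el j i (v.1 j i) := by
  classical
  refine ext_V fun j' i' => ?_
  have e1 : (∑ j, ∑ i, el j i (v.1 j i)).1 = ∑ j, ∑ i, (el j i (v.1 j i)).1 := by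
    push_cast
    rfl
  rw [e1, Finset.sum_apply, Finset.sum_apply, Finset.sum_eq_single j']
  · rw [Finset.sum_apply, Finset.sum_apply]
    simp only [el_apply, true_and]
    rw [Finset.sum_sub_distrib, Finset.sum_ite_eq, if_pos (Finset.mem_univ _)]
    by_cases h0 : i' = 0
    · simp only [h0, if_true]
      rw [v.sum j', sub_zero]
    · simp only [h0, if_false, Finset.sum_const_zero, sub_zero]
  · intro j _ hj
    rw [Finset.sum_apply, Finset.sum_apply]
    refine Finset.sum_eq_zero fun i _ => ?_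
    rw [el_apply]
    simp [hj.symm]
  · simp

theorem el_smul (j : Q m) (i : ZMod m) (r : ℝ) (z : ℂ) : el j i (r * z) = r • el j i z := by
  classical
  refine ext_V fun j' i' => ?_
  have e1 : (r • el j i z).1 j' i' = (r : ℂ) * (el j i z).1 j' i' := by
    change r • (el j i z).1 j' i' = _
    rw [Complex.real_smul]
  rw [e1, el_apply, el_apply, mul_sub, mul_ite, mul_ite, mul_zero]

theorem el_add (j : Q m) (i : ZMod m) (z z' : ℂ) : el j i (z + z') = el j i z + el j i z' := by
  classical
  refine ext_V fun j' i' => ?_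
  have e1 : (el j i z + el j i z').1 j' i' = (el j i z).1 j' i' + (el j i z').1 j' i' := rfl
  rw [e1, el_apply, el_apply, el_apply]
  split_ifs <;> ring

theorem span_Lam : Submodule.span ℝ (Lam m : Set (V m)) = ⊤ := by
  rw [Submodule.eq_top_iff']
  intro v
  rw [decomp v]
  refine Submodule.sum_mem _ fun j _ => Submodule.sum_mem _ fun i _ => ?_
  have h1 : v.1 j i = (v.1 j i).re * 1 + (v.1 j i).im * Complex.I := by
    rw [mul_one, Complex.re_add_im]
  rw [h1, el_add, el_smul, el_smul]
  refine Submodule.add_mem _ (Submodule.smul_mem _ _ (Submodule.subset_span ?_))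
    (Submodule.smul_mem _ _ (Submodule.subset_span ?_))
  · exact el_G j i isGauss_one
  · exact el_G j i (⟨0, 1, by simp⟩ : IsGauss Complex.I)

theorem tq : IsTorusQuotient (Gam m) where
  discrete := by
    have hp0 : (0 : ℝ) < m := by exact_mod_cast (NeZero.pos m)
    refine discreteTopology_iff_isOpen_singleton_zero.mpr
      ⟨Metric.ball 0 (1 / m), Metric.isOpen_ball, ?_⟩
    ext ⟨v, hv⟩
    simp only [Set.mem_preimage, mem_ball_zero_iff, Set.mem_singleton_iff]
    constructor
    · intro h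
      apply Subtype.ext
      refine ext_V fun j i => ?_
      have h1 : ‖v.1 j i‖ < 1 / m :=
        ((norm_le_pi_norm (v.1 j) i).trans (norm_le_pi_norm v.1 j)).trans_lt h
      have h2 : (m : ℂ) * v.1 j i = 0 := by
        apply gauss_small (gauss_of_latt hv j i)
        rw [norm_mul, Complex.norm_natCast]
        have := mul_lt_mul_of_pos_left h1 hp0
        rwa [mul_one_div_cancel hp0.ne'] at this
      exact (mul_eq_zero.1 h2).resolve_left m_ne
    · intro h
      have h' : v = 0 := congrArg Subtype.val h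
      rw [h', norm_zero]
      positivity
  span_top := by
    refine top_le_iff.1 ?_
    rw [← span_Lam (m := m)]
    exact Submodule.span_mono fun w hw => latt_of_G hw
  finite_linear := by
    have hfin : (Set.range fun p : ZMod m × ZMod m => (A p.1 p.2 : V m →ₗ[ℂ] V m)).Finite :=
      Set.finite_range _
    have h : {B : V m ≃ₗ[ℂ] V m | ∃ γ ∈ Gam m, γ.linear = B} ⊆
        (fun B : V m ≃ₗ[ℂ] V m => (B : V m →ₗ[ℂ] V m)) ⁻¹'
          (Set.range fun p : ZMod m × ZMod m => (A p.1 p.2 : V m →ₗ[ℂ] V m)) := by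
      rintro _ ⟨γ, ⟨a, b, w, h⟩, rfl⟩
      exact ⟨(a, b), LinearMap.ext fun v => (h.linear v).symm⟩
    exact (hfin.preimage (Set.injOn_of_injective LinearEquiv.toLinearMap_injective)).subset h

end Q36.EI
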